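import Pool.Agent.R489.HC.Stm

/-!
# HC-SPHX: exactness in the middle from the Euler characteristic (adapted by helper637 from
Pool/Agent/R474/HB/Eul.lean)
-/

set_option autoImplicit false

namespace Pool.Agent.R637.HC

open Finset Pool.Agent.R489.HB

section

variable {W : Type} [DecidableEq W]

/-- the part of the definition of a triangulated sphere which is used -/
structure Pre (Φ : Finset (Finset W)) : Prop where
  ne : Φ.Nonempty
  three : ∀ f ∈ Φ, f.card = 3
  two : ∀ e ∈ edg Φ, (fc Φ e).card = 2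
  conn : ∀ Ψ ⊆ Φ, (∀ e ∈ edg Φ, Even (fc Ψ e).card) → Ψ = ∅ ∨ Ψ = Φ

theorem mem_edg {Φ : Finset (Finset W)} {e : Finset W} :
    e ∈ edg Φ ↔ ∃ f ∈ Φ, e ⊆ f ∧ e.card = 2 := by
  simp [edg, mem_biUnion, mem_powersetCard]

theorem mem_vts {Φ : Finset (Finset W)} {v : W} : v ∈ vts Φ ↔ ∃ f ∈ Φ, v ∈ f := by
  simp [vts]

theorem zmod2 (y : ZMod 2) : y = 0 ∨ y = 1 := by
  revert y
  decide

/-- sums over a subtype with values in `ZMod 2` count -/
theorem sum_eq_card {α : Type} [DecidableEq α] (s : Finset α) (x : {a // a ∈ s} → ZMod 2)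
    (p : α → Prop) [DecidablePred p] :
    (∑ a : {a // a ∈ s}, if p a.1 then x a else 0) =
      ((((univ.filter (fun a => x a = 1)).map (Function.Embedding.subtype _)).filter p).card :
        ZMod 2) := by
  rw [Finset.filter_map, Finset.card_map, Finset.filter_filter, Finset.card_eq_sum_ones,
    Nat.cast_sum, Finset.sum_filter]
  refine Finset.sum_congr rfl fun a _ => ?_
  rcases zmod2 (x a) with h | h <;> simp [h]

/-- edges of a triangle at one of its vertices -/
theorem card_edges_at {f : Finset W} (hf : f.card = 3) {v : W} (hv : v ∈ f) :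
    ((f.powersetCard 2).filter (fun e => v ∈ e)).card = 2 := by
  have h1 : (f.powersetCard 2).filter (fun e => v ∈ e) = (f.erase v).image (fun w => {v, w}) := by
    ext e
    simp only [mem_filter, mem_powersetCard, mem_image, mem_erase]
    constructor
    · rintro ⟨⟨h1, h2⟩, h3⟩
      obtain ⟨a, b, hab, rfl⟩ := card_eq_two.1 h2
      simp only [mem_insert, mem_singleton] at h3
      rcases h3 with rfl | rfl
      · exact ⟨b, ⟨fun h => hab h.symm, h1 (by simp)⟩, rfl⟩
      · exact ⟨a, ⟨hab, h1 (by simp)⟩, Finset.pair_comm _ _⟩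
    · rintro ⟨w, ⟨h1, h2⟩, rfl⟩
      refine ⟨⟨?_, card_pair (Ne.symm h1)⟩, by simp⟩
      intro x hx
      simp only [mem_insert, mem_singleton] at hx
      rcases hx with rfl | rfl
      · exact hv
      · exact h2
  rw [h1, card_image_of_injOn, card_erase_of_mem hv, hf]
  intro a ha b hb hab
  simp only [coe_erase, Set.mem_sdiff, mem_coe, Set.mem_singleton_iff] at ha hb
  have h2 : a ∈ ({v, b} : Finset W) := by
    have h3 : a ∈ ({v, a} : Finset W) := by simp
    have h4 : ({v, a} : Finset W) = {v, b} := hab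
    rw [← h4]
    exact h3
  simp only [mem_insert, mem_singleton] at h2
  rcases h2 with h2 | h2
  · exact absurd h2 ha.2
  · exact h2

theorem finrank_one {ι : Type} [Finite ι] [Nonempty ι] (S : Submodule (ZMod 2) (ι → ZMod 2))
    (h1 : (1 : ι → ZMod 2) ∈ S) (h2 : ∀ x ∈ S, x = 0 ∨ x = 1) :
    Module.finrank (ZMod 2) S = 1 := by
  rw [finrank_eq_one_iff']
  refine ⟨⟨1, h1⟩, ?_, ?_⟩
  · intro h
    have h3 := congrArg (fun z : S => z.1) h
    simp at h3
  · rintro ⟨x, hx⟩
    rcases h2 x hx with rfl | rfl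
    · exact ⟨0, by ext; simp⟩
    · exact ⟨1, by ext; simp⟩

/-- edges against triangles -/
def M2 (Φ : Finset (Finset W)) : Matrix {e // e ∈ edg Φ} {f // f ∈ Φ} (ZMod 2) :=
  fun e f => if e.1 ⊆ f.1 then 1 else 0

/-- vertices against edges -/
def M1 (Φ : Finset (Finset W)) : Matrix {v // v ∈ vts Φ} {e // e ∈ edg Φ} (ZMod 2) :=
  fun v e => if v.1 ∈ e.1 then 1 else 0

/-- the set of a vector -/
def st {α : Type} (s : Finset α) (x : {a // a ∈ s} → ZMod 2) : Finset α :=
  (univ.filter (fun a => x a = 1)).map (Function.Embedding.subtype _)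

theorem mem_st {α : Type} (s : Finset α) (x : {a // a ∈ s} → ZMod 2) (a : α) :
    a ∈ st s x ↔ ∃ h : a ∈ s, x ⟨a, h⟩ = 1 := by
  simp [st]

theorem st_sub {α : Type} (s : Finset α) (x : {a // a ∈ s} → ZMod 2) : st s x ⊆ s := by
  intro a ha
  obtain ⟨h, _⟩ := (mem_st s x a).1 ha
  exact h

theorem M2_apply (Φ : Finset (Finset W)) (x : {f // f ∈ Φ} → ZMod 2) (e : {e // e ∈ edg Φ}) :
    (M2 Φ).mulVecLin x e = ((fc (st Φ x) e.1).card : ZMod 2) := by
  rw [Matrix.mulVecLin_apply]
  unfold fc st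
  rw [← sum_eq_card Φ x (fun f => e.1 ⊆ f)]
  simp only [Matrix.mulVec, dotProduct, M2]
  refine Finset.sum_congr rfl fun f _ => ?_
  split_ifs <;> simp

theorem M1_apply (Φ : Finset (Finset W)) (z : {e // e ∈ edg Φ} → ZMod 2)
    (v : {v // v ∈ vts Φ}) :
    (M1 Φ).mulVecLin z v = (((st (edg Φ) z).filter (fun e => v.1 ∈ e)).card : ZMod 2) := by
  rw [Matrix.mulVecLin_apply]
  unfold st
  rw [← sum_eq_card (edg Φ) z (fun e => v.1 ∈ e)]
  simp only [Matrix.mulVec, dotProduct, M1]
  refine Finset.sum_congr rfl fun f _ => ?_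
  split_ifs <;> simp

theorem M1T_apply (Φ : Finset (Finset W)) (g : {v // v ∈ vts Φ} → ZMod 2)
    (e : {e // e ∈ edg Φ}) :
    (M1 Φ).transpose.mulVecLin g e = (((st (vts Φ) g).filter (fun v => v ∈ e.1)).card : ZMod 2) := by
  rw [Matrix.mulVecLin_apply]
  unfold st
  rw [← sum_eq_card (vts Φ) g (fun v => v ∈ e.1)]
  simp only [Matrix.mulVec, dotProduct, M1, Matrix.transpose_apply]
  refine Finset.sum_congr rfl fun f _ => ?_
  split_ifs <;> simp

theorem ker2 {Φ : Finset (Finset W)} (h : Pre Φ) :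
    Module.finrank (ZMod 2) (LinearMap.ker (M2 Φ).mulVecLin) = 1 := by
  have : Nonempty {f // f ∈ Φ} := by
    obtain ⟨f, hf⟩ := h.ne
    exact ⟨⟨f, hf⟩⟩
  have key : ∀ x : {f // f ∈ Φ} → ZMod 2, x ∈ LinearMap.ker (M2 Φ).mulVecLin ↔
      ∀ e ∈ edg Φ, Even (fc (st Φ x) e).card := by
    intro x
    rw [LinearMap.mem_ker]
    constructor
    · intro hx e he
      have h1 := congrFun hx ⟨e, he⟩
      rw [M2_apply] at h1
      exact (ZMod.natCast_eq_zero_iff_even).1 h1
    · intro hx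
      funext e
      rw [M2_apply]
      exact (ZMod.natCast_eq_zero_iff_even).2 (hx e.1 e.2)
  apply finrank_one
  · rw [key]
    intro e he
    have h1 : st Φ 1 = Φ := by
      ext f
      rw [mem_st]
      simp
    rw [h1, h.two e he]
    exact even_two
  · intro x hx
    rw [key] at hx
    rcases h.conn (st Φ x) (st_sub Φ x) hx with h1 | h1
    · left
      funext f
      rcases zmod2 (x f) with h2 | h2
      · exact h2
      · exfalso
        have h3 : f.1 ∈ st Φ x := (mem_st Φ x f.1).2 ⟨f.2, h2⟩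
        rw [h1] at h3
        exact absurd h3 (notMem_empty _)
    · right
      funext f
      have h3 : f.1 ∈ st Φ x := by
        rw [h1]
        exact f.2
      obtain ⟨h4, h5⟩ := (mem_st Φ x f.1).1 h3
      exact h5

theorem ker1T {Φ : Finset (Finset W)} (h : Pre Φ) :
    Module.finrank (ZMod 2) (LinearMap.ker (M1 Φ).transpose.mulVecLin) = 1 := by
  have : Nonempty {v // v ∈ vts Φ} := by
    obtain ⟨f, hf⟩ := h.ne
    have h3 := h.three f hf
    obtain ⟨v, hv⟩ := card_pos.1 (by rw [h3]; norm_num : 0 < f.card)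
    exact ⟨⟨v, mem_vts.2 ⟨f, hf, hv⟩⟩⟩
  have key : ∀ g : {v // v ∈ vts Φ} → ZMod 2, g ∈ LinearMap.ker (M1 Φ).transpose.mulVecLin ↔
      ∀ e ∈ edg Φ, Even ((st (vts Φ) g).filter (fun v => v ∈ e)).card := by
    intro g
    rw [LinearMap.mem_ker]
    constructor
    · intro hx e he
      have h1 := congrFun hx ⟨e, he⟩
      rw [M1T_apply] at h1
      exact (ZMod.natCast_eq_zero_iff_even).1 h1
    · intro hx
      funext e
      rw [M1T_apply]
      exact (ZMod.natCast_eq_zero_iff_even).2 (hx e.1 e.2)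
  have hin : ∀ e ∈ edg Φ, e ⊆ vts Φ := by
    intro e he x hx
    obtain ⟨f, h1, h2, _⟩ := mem_edg.1 he
    exact mem_vts.2 ⟨f, h1, h2 hx⟩
  apply finrank_one
  · rw [key]
    intro e he
    have h1 : (st (vts Φ) 1).filter (fun v => v ∈ e) = e := by
      ext f
      rw [mem_filter, mem_st]
      simp only [Pi.one_apply, exists_prop, and_true]
      exact ⟨fun h => h.2, fun h => ⟨hin e he h, h⟩⟩
    obtain ⟨f, _, _, h4⟩ := mem_edg.1 he
    rw [h1, h4]
    exact even_two
  · intro g hg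
    rw [key] at hg
    -- the set of the vertices with value one
    set S := st (vts Φ) g with hS
    have hpair : ∀ x y : W, x ≠ y → {x, y} ∈ edg Φ → (x ∈ S ↔ y ∈ S) := by
      intro x y hxy he
      have h1 := hg _ he
      have h2 : S.filter (fun v => v ∈ ({x, y} : Finset W)) =
          ({x, y} : Finset W).filter (fun v => v ∈ S) := by
        ext w
        simp only [mem_filter]
        exact and_comm
      rw [h2] at h1
      by_cases hx : x ∈ S
      · by_cases hy : y ∈ S
        · exact ⟨fun _ => hy, fun _ => hx⟩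
        · exfalso
          rw [filter_insert, if_pos hx, filter_singleton, if_neg hy] at h1
          simp at h1
      · by_cases hy : y ∈ S
        · exfalso
          rw [filter_insert, if_neg hx, filter_singleton, if_pos hy] at h1
          simp at h1
        · exact ⟨fun h => absurd h hx, fun h => absurd h hy⟩
    have hsub2 : ∀ f ∈ Φ, ∀ x ∈ f, ∀ y ∈ f, x ≠ y → {x, y} ∈ edg Φ := by
      intro f hf x hx y hy hxy
      refine mem_edg.2 ⟨f, hf, ?_, card_pair hxy⟩
      intro w hw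
      simp only [mem_insert, mem_singleton] at hw
      rcases hw with rfl | rfl
      · exact hx
      · exact hy
    have hface : ∀ f ∈ Φ, ∀ x ∈ f, ∀ y ∈ f, (x ∈ S ↔ y ∈ S) := by
      intro f hf x hx y hy
      by_cases hxy : x = y
      · rw [hxy]
      · exact hpair x y hxy (hsub2 f hf x hx y hy hxy)
    have hev : ∀ e ∈ edg Φ, Even (fc (Φ.filter (fun f => ∀ x ∈ f, x ∈ S)) e).card := by
      intro e he
      obtain ⟨f0, h1, h2, h3⟩ := mem_edg.1 he
      obtain ⟨a, b, hab, rfl⟩ := card_eq_two.1 h3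
      by_cases ha : a ∈ S
      · have h4 : fc (Φ.filter (fun f => ∀ x ∈ f, x ∈ S)) {a, b} = fc Φ {a, b} := by
          ext f
          simp only [fc, mem_filter]
          constructor
          · rintro ⟨⟨h5, _⟩, h6⟩
            exact ⟨h5, h6⟩
          · rintro ⟨h5, h6⟩
            refine ⟨⟨h5, fun x hx => ?_⟩, h6⟩
            exact (hface f h5 a (h6 (by simp)) x hx).1 ha
        rw [h4, h.two _ he]
        exact even_two
      · have h4 : fc (Φ.filter (fun f => ∀ x ∈ f, x ∈ S)) {a, b} = ∅ := by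
          rw [eq_empty_iff_forall_notMem]
          intro f hf
          simp only [fc, mem_filter] at hf
          exact ha (hf.1.2 a (hf.2 (by simp)))
        rw [h4]
        simp
    rcases h.conn _ (filter_subset _ _) hev with h1 | h1
    · left
      funext v
      rcases zmod2 (g v) with h2 | h2
      · exact h2
      · exfalso
        have h3 : v.1 ∈ S := (mem_st (vts Φ) g v.1).2 ⟨v.2, h2⟩
        obtain ⟨f, hf, hvf⟩ := mem_vts.1 v.2
        have h4 : f ∈ Φ.filter (fun f => ∀ x ∈ f, x ∈ S) :=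
          mem_filter.2 ⟨hf, fun x hx => (hface f hf v.1 hvf x hx).1 h3⟩
        rw [h1] at h4
        exact absurd h4 (notMem_empty _)
    · right
      funext v
      obtain ⟨f, hf, hvf⟩ := mem_vts.1 v.2
      have h4 : f ∈ Φ.filter (fun f => ∀ x ∈ f, x ∈ S) := by
        rw [h1]
        exact hf
      obtain ⟨_, h5⟩ := (mem_st (vts Φ) g v.1).1 ((mem_filter.1 h4).2 v.1 hvf)
      exact h5

theorem M12 {Φ : Finset (Finset W)} (h : Pre Φ) : M1 Φ * M2 Φ = 0 := by
  ext v f
  rw [Matrix.mul_apply]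
  simp only [M1, M2, Matrix.zero_apply]
  have h1 : ∀ e : {e // e ∈ edg Φ}, ((if v.1 ∈ e.1 then (1 : ZMod 2) else 0) *
      if e.1 ⊆ f.1 then (1 : ZMod 2) else 0) = if (v.1 ∈ e.1 ∧ e.1 ⊆ f.1) then 1 else 0 := by
    intro e
    by_cases h2 : v.1 ∈ e.1 <;> by_cases h3 : e.1 ⊆ f.1 <;> simp [h2, h3]
  rw [Finset.sum_congr rfl fun e _ => h1 e,
    Finset.sum_coe_sort (edg Φ) (fun e => if (v.1 ∈ e ∧ e ⊆ f.1) then (1 : ZMod 2) else 0),
    Finset.sum_boole]
  have h2 : (edg Φ).filter (fun e => v.1 ∈ e ∧ e ⊆ f.1) =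
      (f.1.powersetCard 2).filter (fun e => v.1 ∈ e) := by
    ext e
    simp only [mem_filter, mem_powersetCard]
    constructor
    · rintro ⟨h3, h4, h5⟩
      obtain ⟨_, _, _, h6⟩ := mem_edg.1 h3
      exact ⟨⟨h5, h6⟩, h4⟩
    · rintro ⟨⟨h5, h6⟩, h4⟩
      exact ⟨mem_edg.2 ⟨f.1, f.2, h5, h6⟩, h4, h5⟩
  rw [h2]
  by_cases hv : v.1 ∈ f.1
  · rw [card_edges_at (h.three f.1 f.2) hv]
    decide
  · have h3 : (f.1.powersetCard 2).filter (fun e => v.1 ∈ e) = ∅ := by
      rw [eq_empty_iff_forall_notMem]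
      intro e he
      obtain ⟨h4, h5⟩ := mem_filter.1 he
      exact hv ((mem_powersetCard.1 h4).1 h5)
    rw [h3]
    simp

theorem exact12 {Φ : Finset (Finset W)} (h : Pre Φ)
    (hE : (vts Φ).card + Φ.card = (edg Φ).card + 2) :
    LinearMap.range (M2 Φ).mulVecLin = LinearMap.ker (M1 Φ).mulVecLin := by
  have r2 := LinearMap.finrank_range_add_finrank_ker (M2 Φ).mulVecLin
  have r1 := LinearMap.finrank_range_add_finrank_ker (M1 Φ).mulVecLin
  have r1t := LinearMap.finrank_range_add_finrank_ker (M1 Φ).transpose.mulVecLin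
  have e1 : Module.finrank (ZMod 2) (LinearMap.range (M1 Φ).transpose.mulVecLin) =
      Module.finrank (ZMod 2) (LinearMap.range (M1 Φ).mulVecLin) := Matrix.rank_transpose (M1 Φ)
  rw [ker2 h, Module.finrank_fintype_fun_eq_card, Fintype.card_coe] at r2
  rw [Module.finrank_fintype_fun_eq_card, Fintype.card_coe] at r1
  rw [ker1T h, Module.finrank_fintype_fun_eq_card, Fintype.card_coe, e1] at r1t
  have hle : LinearMap.range (M2 Φ).mulVecLin ≤ LinearMap.ker (M1 Φ).mulVecLin := by
    rintro _ ⟨x, rfl⟩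
    rw [LinearMap.mem_ker, Matrix.mulVecLin_apply, Matrix.mulVecLin_apply, Matrix.mulVec_mulVec,
      M12 h, Matrix.zero_mulVec]
  exact Submodule.eq_of_le_of_finrank_eq hle (by omega)

theorem main {Φ : Finset (Finset W)} (h : Pre Φ)
    (hE : (vts Φ).card + Φ.card = (edg Φ).card + 2) (Z : Finset (Finset W)) (hZ : Z ⊆ edg Φ)
    (hev : ∀ v : W, Even (Z.filter (fun e => v ∈ e)).card) :
    ∃ Ψ ⊆ Φ, ∀ e ∈ edg Φ, (e ∈ Z ↔ Odd (fc Ψ e).card) := by
  set z : {e // e ∈ edg Φ} → ZMod 2 := fun e => if e.1 ∈ Z then 1 else 0 with hz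
  have hst : st (edg Φ) z = Z := by
    ext e
    rw [mem_st]
    constructor
    · rintro ⟨_, h4⟩
      by_contra h5
      simp [hz, h5] at h4
    · intro h4
      exact ⟨hZ h4, by simp [hz, h4]⟩
  have hk : z ∈ LinearMap.ker (M1 Φ).mulVecLin := by
    rw [LinearMap.mem_ker]
    funext v
    rw [M1_apply, hst]
    exact ZMod.natCast_eq_zero_iff_even.2 (hev v.1)
  rw [← exact12 h hE] at hk
  obtain ⟨x, hx⟩ := hk
  refine ⟨st Φ x, st_sub Φ x, fun e he => ?_⟩
  have h1 := congrFun hx ⟨e, he⟩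
  rw [M2_apply] at h1
  constructor
  · intro h2
    have h3 : z ⟨e, he⟩ = 1 := by simp [hz, h2]
    rw [h3] at h1
    exact ZMod.natCast_eq_one_iff_odd.1 h1
  · intro h2
    have h4 : ((fc (st Φ x) e).card : ZMod 2) = 1 := ZMod.natCast_eq_one_iff_odd.2 h2
    by_contra h3
    have h5 : z ⟨e, he⟩ = 0 := by simp [hz, h3]
    rw [h5] at h1
    rw [show ((fc (st Φ x) (⟨e, he⟩ : {e // e ∈ edg Φ}).1).card : ZMod 2) =
      ((fc (st Φ x) e).card : ZMod 2) from rfl, h4] at h1
    exact absurd h1 (by decide)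

end

theorem SPHX : Pool.Agent.R489.HC.S_SPHX :=
  fun _ _ _ h1 h2 h3 h4 hE Z hZ hev => main ⟨h1, h2, h3, h4⟩ hE Z hZ hev

end Pool.Agent.R637.HC
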